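import Mathlib
import Pool.Agent.Y734.I.StmsX

/-!
# Project Y734/I, job EMPTY (helper914): generic hyperplanes have no common point

The proof is purely algebraic: for every coordinate `j₀` the ideal generated by the equations of `X`,
the linear forms with independent variables as coefficients and `X_{j₀} - 1` contains a nonzero
polynomial in the coefficients only. Otherwise one gets a point of `X` with `x_{j₀} = 1` over a domain
in which the coefficients are algebraically independent, which has too large a transcendence degree.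
-/

set_option autoImplicit false

namespace Pool.Agent.Y734.I.EMPTY

open Pool.Agent.Y734.I MvPolynomial

theorem aeval_scale {ι : Type} [Fintype ι] {A : Type} [CommRing A] [Algebra ℚ A] {d : ℕ}
    {Φ : MvPolynomial ι ℚ} (h : Φ.IsHomogeneous d) (c : A) (x : ι → A) :
    aeval (fun j => c * x j) Φ = c ^ d * aeval x Φ := by
  rw [aeval_def, aeval_def, eval₂_eq', eval₂_eq', Finset.mul_sum]
  refine Finset.sum_congr rfl fun m hm => ?_
  have h2 : ∑ i, m i = d := by
    have := h (mem_support_iff.1 hm)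
    rw [← this, Finsupp.weight_apply, Finsupp.sum_fintype _ _ (by simp)]
    simp
  have h3 : ∏ i, (c * x i) ^ m i = c ^ d * ∏ i, x i ^ m i := by
    rw [← h2, ← Finset.prod_pow_eq_pow_sum, ← Finset.prod_mul_distrib]
    exact Finset.prod_congr rfl fun i _ => mul_pow _ _ _
  rw [h3]
  ring

theorem map_rename {σ τ A : Type} [CommRing A] [Algebra ℚ A] (q : MvPolynomial τ ℚ →ₐ[ℚ] A)
    (f : σ → τ) (Ψ : MvPolynomial σ ℚ) : q (rename f Ψ) = aeval (fun s => q (X (f s))) Ψ := by
  have h : q.comp (rename f) = aeval (fun s => q (X (f s))) := by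
    apply MvPolynomial.algHom_ext
    intro s
    simp
  exact DFunLike.congr_fun h Ψ

/-- dehomogenisation is injective on forms -/
theorem dehom {T : Type} [Fintype T] {d : ℕ} {Φ : MvPolynomial (Option T) ℚ}
    (h : Φ.IsHomogeneous d)
    (h0 : aeval (fun o : Option T => (o.elim 1 X : MvPolynomial T ℚ)) Φ = 0) : Φ = 0 := by
  have key : X none * Φ = 0 := by
    apply MvPolynomial.funext
    intro c
    rw [map_mul, eval_X, map_zero]
    by_cases hc : c none = 0
    · rw [hc, zero_mul]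
    · have e1 : eval c Φ = (c none) ^ d * eval (fun o => (c none)⁻¹ * c o) Φ := by
        have h2 := aeval_scale h (c none) (fun o => (c none)⁻¹ * c o)
        have h3 : (fun j => c none * ((c none)⁻¹ * c j)) = c := by
          funext j
          rw [← mul_assoc, mul_inv_cancel₀ hc, one_mul]
        rw [h3, aeval_eq_eval, aeval_eq_eval] at h2
        exact h2
      have e2 : eval (fun o => (c none)⁻¹ * c o) Φ =
          aeval (fun t : T => (c none)⁻¹ * c (some t))
            (aeval (fun o : Option T => (o.elim 1 X : MvPolynomial T ℚ)) Φ) := by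
        rw [comp_aeval_apply, ← aeval_eq_eval]
        congr 2
        funext o
        cases o with
        | none => simp [inv_mul_cancel₀ hc]
        | some t => simp
      rw [e1, e2, h0, map_zero, mul_zero, mul_zero]
  exact (mul_eq_zero.1 key).resolve_left (X_ne_zero _)

/-- algebraically independent coordinates of a point with a coordinate `1` give one more
algebraically independent coordinate function -/
theorem upper {N : ℕ} (𝔭 : Ideal (MvPolynomial (Fin (N + 1)) ℚ))
    (hh : ∀ F ∈ 𝔭, ∀ d, homogeneousComponent d F ∈ 𝔭)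
    {B : Type} [CommRing B] [Algebra ℚ B] (x : Fin (N + 1) → B) (hx : ∀ F ∈ 𝔭, aeval x F = 0)
    {T : Type} [Fintype T] (y : T → B) (hy : AlgebraicIndependent ℚ y)
    (e : Option T → Fin (N + 1)) (he0 : x (e none) = 1) (he : ∀ t, x (e (some t)) = y t) :
    AlgebraicIndependent ℚ (fun o : Option T => Ideal.Quotient.mkₐ ℚ 𝔭 (X (e o))) := by
  rw [algebraicIndependent_iff]
  intro Φ hΦ
  have h1 : rename e Φ ∈ 𝔭 := by
    have h2 : Ideal.Quotient.mkₐ ℚ 𝔭 (rename e Φ) = 0 := by
      rw [map_rename]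
      exact hΦ
    exact Ideal.Quotient.eq_zero_iff_mem.1 h2
  have h2 : ∀ d, homogeneousComponent d Φ = 0 := by
    intro d
    apply dehom (homogeneousComponent_isHomogeneous d Φ)
    have h3 : aeval x (rename e (homogeneousComponent d Φ)) = 0 := by
      rw [rename_homogeneousComponent]
      exact hx _ (hh _ h1 d)
    rw [aeval_rename] at h3
    rw [algebraicIndependent_iff] at hy
    apply hy
    rw [comp_aeval_apply]
    have e1 : (fun i : Option T => aeval y (i.elim 1 X : MvPolynomial T ℚ)) = x ∘ e := by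
      funext o
      cases o with
      | none => simp [he0]
      | some t => simp [he]
    rw [e1]
    exact h3
  rw [← sum_homogeneousComponent Φ]
  exact Finset.sum_eq_zero fun d _ => h2 d

/-- the ideal of the equations of the point, with variable linear forms -/
noncomputable def II {N : ℕ} (𝔭 : Ideal (MvPolynomial (Fin (N + 1)) ℚ)) (n : ℕ) (j₀ : Fin (N + 1)) :
    Ideal (MvPolynomial ((Fin (n + 1) × Fin (N + 1)) ⊕ Fin (N + 1)) ℚ) :=
  Ideal.span ({G | ∃ F ∈ 𝔭, G = rename Sum.inr F} ∪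
    Set.range (fun i : Fin (n + 1) => ∑ j, X (Sum.inl (i, j)) * X (Sum.inr j)) ∪
    {X (Sum.inr j₀) - 1})

theorem exists_rel (N n : ℕ) (𝔭 : Ideal (MvPolynomial (Fin (N + 1)) ℚ))
    (hh : ∀ F ∈ 𝔭, ∀ d, homogeneousComponent d F ∈ 𝔭)
    (htr : Algebra.trdeg ℚ (MvPolynomial (Fin (N + 1)) ℚ ⧸ 𝔭) = n + 1) (j₀ : Fin (N + 1)) :
    ∃ Ψ : MvPolynomial (Fin (n + 1) × Fin (N + 1)) ℚ, Ψ ≠ 0 ∧ rename Sum.inl Ψ ∈ II 𝔭 n j₀ := by
  classical
  by_contra hcon
  push Not at hcon
  obtain ⟨M, hM⟩ : ∃ M : Submonoid (MvPolynomial ((Fin (n + 1) × Fin (N + 1)) ⊕ Fin (N + 1)) ℚ),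
    ∀ a, a ∈ M ↔ ∃ Ψ : MvPolynomial (Fin (n + 1) × Fin (N + 1)) ℚ, Ψ ≠ 0 ∧ rename Sum.inl Ψ = a := by
    refine ⟨(nonZeroDivisors _).map (rename Sum.inl : MvPolynomial (Fin (n + 1) × Fin (N + 1)) ℚ →ₐ[ℚ]
      MvPolynomial ((Fin (n + 1) × Fin (N + 1)) ⊕ Fin (N + 1)) ℚ), fun a => ?_⟩
    rw [Submonoid.mem_map]
    simp only [mem_nonZeroDivisors_iff_ne_zero]
  have hdis : Disjoint (II 𝔭 n j₀ : Set (MvPolynomial ((Fin (n + 1) × Fin (N + 1)) ⊕ Fin (N + 1)) ℚ))
      M := by
    rw [Set.disjoint_left]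
    intro a ha haM
    obtain ⟨Ψ, h1, rfl⟩ := (hM a).1 haM
    exact hcon Ψ h1 ha
  obtain ⟨Q, hQ, hIQ, hQM⟩ := Ideal.exists_le_prime_disjoint _ M hdis
  let B := MvPolynomial ((Fin (n + 1) × Fin (N + 1)) ⊕ Fin (N + 1)) ℚ ⧸ Q
  have : IsDomain B := Ideal.Quotient.isDomain Q
  obtain ⟨q, hq⟩ : ∃ q : MvPolynomial ((Fin (n + 1) × Fin (N + 1)) ⊕ Fin (N + 1)) ℚ →ₐ[ℚ] B,
    q = Ideal.Quotient.mkₐ ℚ Q := ⟨_, rfl⟩
  have hq0 : ∀ a, q a = 0 ↔ a ∈ Q := by
    intro a
    rw [hq]
    exact Ideal.Quotient.eq_zero_iff_mem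
  have hqs : Function.Surjective q := by
    rw [hq]
    exact Ideal.Quotient.mkₐ_surjective ℚ Q
  obtain ⟨h, hh'⟩ : ∃ h : Fin (n + 1) × Fin (N + 1) → B, h = fun s => q (X (Sum.inl s)) := ⟨_, rfl⟩
  obtain ⟨x, hx'⟩ : ∃ x : Fin (N + 1) → B, x = fun j => q (X (Sum.inr j)) := ⟨_, rfl⟩
  have hql : ∀ Ψ : MvPolynomial (Fin (n + 1) × Fin (N + 1)) ℚ, q (rename Sum.inl Ψ) = aeval h Ψ := by
    intro Ψ
    rw [map_rename, hh']
  have hqr : ∀ F : MvPolynomial (Fin (N + 1)) ℚ, q (rename Sum.inr F) = aeval x F := by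
    intro F
    rw [map_rename, hx']
  have hind : AlgebraicIndependent ℚ h := by
    rw [algebraicIndependent_iff]
    intro Ψ hΨ
    by_contra h0
    rw [← hql, hq0] at hΨ
    exact (Set.disjoint_left.1 hQM) hΨ ((hM _).2 ⟨Ψ, h0, rfl⟩)
  have hx1 : x j₀ = 1 := by
    have h1 : q (X (Sum.inr j₀) - 1) = 0 := (hq0 _).2 (hIQ (Ideal.subset_span (Or.inr rfl)))
    rw [map_sub, map_one, sub_eq_zero] at h1
    rw [hx']
    exact h1
  have hxF : ∀ F ∈ 𝔭, aeval x F = 0 := by
    intro F hF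
    rw [← hqr, hq0]
    exact hIQ (Ideal.subset_span (Or.inl (Or.inl ⟨F, hF, rfl⟩)))
  have hlin : ∀ i : Fin (n + 1), ∑ j, h (i, j) * x j = 0 := by
    intro i
    have h1 : q (∑ j, X (Sum.inl (i, j)) * X (Sum.inr j)) = 0 :=
      (hq0 _).2 (hIQ (Ideal.subset_span (Or.inl (Or.inr ⟨i, rfl⟩))))
    rw [map_sum] at h1
    simp only [map_mul] at h1
    rw [hh', hx']
    exact h1
  -- the generating set
  obtain ⟨E, hE⟩ : ∃ E : Finset (Fin (n + 1) × Fin (N + 1)),
    E = (Finset.univ : Finset (Fin (n + 1))) ×ˢ (Finset.univ.erase j₀ : Finset (Fin (N + 1))) :=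
    ⟨_, rfl⟩
  have hEc : E.card = (n + 1) * N := by
    rw [hE, Finset.card_product, Finset.card_erase_of_mem (Finset.mem_univ _)]
    simp
  obtain ⟨t, ht⟩ : ∃ t : Set B, t = Set.range x ∪ h '' (E : Set (Fin (n + 1) × Fin (N + 1))) :=
    ⟨_, rfl⟩
  have htx : ∀ j, x j ∈ Algebra.adjoin ℚ t := fun j =>
    Algebra.subset_adjoin (by rw [ht]; exact Or.inl ⟨j, rfl⟩)
  have hth : ∀ i j, j ≠ j₀ → h (i, j) ∈ Algebra.adjoin ℚ t := fun i j hj =>
    Algebra.subset_adjoin (by
      rw [ht]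
      refine Or.inr ⟨(i, j), ?_, rfl⟩
      rw [hE]
      simp [hj])
  have hth0 : ∀ i j, h (i, j) ∈ Algebra.adjoin ℚ t := by
    intro i j
    by_cases hj : j = j₀
    · subst hj
      have h1 := hlin i
      rw [← Finset.add_sum_erase _ _ (Finset.mem_univ j), hx1, mul_one] at h1
      have h2 : h (i, j) = -∑ k ∈ Finset.univ.erase j, h (i, k) * x k := eq_neg_of_add_eq_zero_left h1
      rw [h2]
      apply Subalgebra.neg_mem
      apply Subalgebra.sum_mem
      intro k hk
      exact Subalgebra.mul_mem _ (hth i k (Finset.ne_of_mem_erase hk)) (htx k)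
    · exact hth i j hj
  have hall : ∀ a, q a ∈ Algebra.adjoin ℚ t := by
    intro a
    induction a using MvPolynomial.induction_on with
    | C c =>
      have : q (C c) = algebraMap ℚ B c := q.commutes c
      rw [this]
      exact Subalgebra.algebraMap_mem _ _
    | add a b ha hb =>
      rw [map_add]
      exact Subalgebra.add_mem _ ha hb
    | mul_X a s ha =>
      rw [map_mul]
      refine Subalgebra.mul_mem _ ha ?_
      rcases s with ⟨i, j⟩ | j
      · have := hth0 i j
        rw [hh'] at this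
        exact this
      · have := htx j
        rw [hx'] at this
        exact this
  have halg : Algebra.IsAlgebraic (Algebra.adjoin ℚ t) B := by
    refine ⟨fun b => ?_⟩
    obtain ⟨a, rfl⟩ := hqs b
    exact isAlgebraic_algebraMap (⟨q a, hall a⟩ : Algebra.adjoin ℚ t)
  obtain ⟨u, hut, hbas⟩ := exists_isTranscendenceBasis_subset (R := ℚ) (A := B) t
  have htfin : t.Finite := by
    rw [ht]
    exact (Set.finite_range x).union (E.finite_toSet.image h)
  have hufin : u.Finite := htfin.subset hut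
  have hlow : (n + 1) * (N + 1) ≤ u.ncard := by
    have h1 := hind.cardinalMk_le_trdeg
    rw [← hbas.cardinalMk_eq_trdeg, ← Set.cast_ncard hufin] at h1
    simp only [Cardinal.mk_prod, Cardinal.lift_id, Cardinal.mk_fin] at h1
    exact_mod_cast h1
  obtain ⟨U, hU⟩ : ∃ U : Set B, U = u ∩ Set.range x := ⟨_, rfl⟩
  have hUu : U ⊆ u := by rw [hU]; exact Set.inter_subset_left
  have hUfin : U.Finite := hufin.subset hUu
  have hcov : u ⊆ U ∪ h '' (E : Set (Fin (n + 1) × Fin (N + 1))) := by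
    intro z hz
    have h1 := hut hz
    rw [ht] at h1
    rcases h1 with h1 | h1
    · left
      rw [hU]
      exact ⟨hz, h1⟩
    · right
      exact h1
  have hUc : n + 1 ≤ U.ncard := by
    have h1 := Set.ncard_le_ncard hcov (hUfin.union (E.finite_toSet.image h))
    have h2 := Set.ncard_union_le U (h '' (E : Set (Fin (n + 1) × Fin (N + 1))))
    have h3 := Set.ncard_image_le (f := h) E.finite_toSet
    rw [Set.ncard_coe_finset, hEc] at h3
    have h4 : (n + 1) * (N + 1) = (n + 1) * N + (n + 1) := by ring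
    omega
  have hUind : AlgebraicIndependent ℚ ((↑) : U → B) := hbas.1.mono hUu
  have hUr : ∀ z : U, ∃ j, x j = z := by
    rintro ⟨z, hz⟩
    rw [hU] at hz
    exact hz.2
  choose e he using hUr
  have : Fintype U := hUfin.fintype
  have hup := upper 𝔭 hh x hxF ((↑) : U → B) hUind (fun o => o.elim j₀ e) hx1 he
  have h5 := hup.cardinalMk_le_trdeg
  rw [htr, Cardinal.mk_option, ← Set.cast_ncard hUfin] at h5
  have h6 : U.ncard + 1 ≤ n + 1 := by exact_mod_cast h5
  omega

theorem empty : EmptyStmt := by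
  classical
  intro N n 𝔭 _ hh htr
  choose Ψ hΨ0 hΨ using exists_rel N n 𝔭 hh htr
  refine ⟨∏ j, Ψ j, Finset.prod_ne_zero_iff.2 fun j _ => hΨ0 j, ?_⟩
  intro h hne κ _ _ x hx hX
  by_contra hcon
  push Not at hcon
  apply hne
  obtain ⟨j₀, hj₀⟩ := Function.ne_iff.1 hx
  have hj : x j₀ ≠ 0 := hj₀
  rw [map_prod]
  apply Finset.prod_eq_zero (Finset.mem_univ j₀)
  obtain ⟨z, hz⟩ : ∃ z : Fin (N + 1) → κ, z = fun j => (x j₀)⁻¹ * x j := ⟨_, rfl⟩
  obtain ⟨φ, hφ⟩ : ∃ φ : MvPolynomial ((Fin (n + 1) × Fin (N + 1)) ⊕ Fin (N + 1)) ℚ →ₐ[ℚ] κ,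
    φ = aeval (Sum.elim (fun s => algebraMap ℚ κ (h s.1 s.2)) z) := ⟨_, rfl⟩
  have hker : II 𝔭 n j₀ ≤ RingHom.ker φ := by
    unfold II
    rw [Ideal.span_le]
    rintro G ((⟨F, hF, rfl⟩ | ⟨i, rfl⟩) | hG)
    · rw [SetLike.mem_coe, RingHom.mem_ker, hφ, aeval_rename, Sum.elim_comp_inr]
      rw [← sum_homogeneousComponent F, map_sum]
      apply Finset.sum_eq_zero
      intro d _
      rw [hz, aeval_scale (homogeneousComponent_isHomogeneous d F),
        hX _ ⟨hh F hF d, d, homogeneousComponent_isHomogeneous d F⟩, mul_zero]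
    · rw [SetLike.mem_coe, RingHom.mem_ker, hφ, map_sum]
      simp only [map_mul, aeval_X, Sum.elim_inl, Sum.elim_inr]
      have h1 := hcon i
      unfold ev at h1
      rw [hz]
      have h2 : ∑ j, algebraMap ℚ κ (h i j) * ((x j₀)⁻¹ * x j) =
          (x j₀)⁻¹ * ∑ j, algebraMap ℚ κ (h i j) * x j := by
        rw [Finset.mul_sum]
        exact Finset.sum_congr rfl fun j _ => by ring
      rw [h2, h1, mul_zero]
    · rw [Set.mem_singleton_iff] at hG
      rw [hG, SetLike.mem_coe, RingHom.mem_ker, hφ, map_sub, map_one, aeval_X, Sum.elim_inr, hz]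
      simp only
      rw [inv_mul_cancel₀ hj, sub_self]
  have h3 := hker (hΨ j₀)
  rw [RingHom.mem_ker, hφ, aeval_rename, Sum.elim_comp_inl] at h3
  have h4 : aeval (fun s : Fin (n + 1) × Fin (N + 1) => algebraMap ℚ κ (h s.1 s.2)) (Ψ j₀) =
      algebraMap ℚ κ (eval (fun ij => h ij.1 ij.2) (Ψ j₀)) := by
    rw [← aeval_eq_eval, ← Algebra.ofId_apply, comp_aeval_apply]
    rfl
  rw [h4] at h3
  exact (map_eq_zero_iff _ (algebraMap ℚ κ).injective).1 h3

end Pool.Agent.Y734.I.EMPTY
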